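import Pool.Agent.W_bd7f91F_h12.MainC

/-!
# A giant component of random k-SAT solutions with logarithmic steps, up to (1 - o(1)) 2^k ln k / k

The full positive answer to Q1, with `ε(k) = 20 ln ln k / ln k`, uniformly in the number of clauses.
-/

set_option autoImplicit false

open Finset
open scoped Classical

namespace Pool.Agent.Results.MP_bd7f91_pr.GiantUpToClustering

theorem result :
    Filter.Tendsto (fun k : ℕ => 20 * Real.log (Real.log k) / Real.log k) Filter.atTop (nhds 0) ∧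
    ∃ k0 : ℕ, ∀ k : ℕ, k0 ≤ k → ∃ C : ℝ, ∀ δ : ℝ, 0 < δ → ∃ n0 : ℕ, ∀ n : ℕ, n0 ≤ n → ∀ m : ℕ,
      (m : ℝ) ≤ (1 - 20 * Real.log (Real.log k) / Real.log k) * (2 ^ k / k * Real.log k) * n →
      (1 - δ) * (Fintype.card (KSat.Formula n k m) : ℝ) ≤
        ((univ.filter (fun Φ : KSat.Formula n k m =>
          KSat.Giant Φ (C * Real.log n) δ)).card : ℝ) :=
  ⟨GC.eps_tendsto, GC.giant_full⟩

end Pool.Agent.Results.MP_bd7f91_pr.GiantUpToClustering
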